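import Pool.Agent.Helper597.PNI

/-!
# Polynomial numerical indices one: spaces whose norm is Fréchet differentiable on a dense set

For complex Banach spaces whose norm is Fréchet differentiable at a dense set of points (in
particular for all Asplund spaces) we characterise the class of spaces with all polynomial
numerical indices equal to one, and show that its infinite dimensional members contain `c_0`.
-/

set_option autoImplicit false

namespace Pool.Agent.Results.MP_a7db77_an.FrechetCase

open Pool.Agent.Helper597.PNI

/-- Let `X ≠ 0` be a complex Banach space whose norm is Fréchet differentiable at a dense set of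
points (for instance an Asplund space). Then all polynomial numerical indices `n^(k)(X)`, `k ≥ 2`,
are one if and only if for every norm one point `x` at which the norm is Fréchet differentiable
the norming functional `a` of `x` spans an `L`-summand of `X*`. Moreover, if all the indices are
one and `X` is infinite dimensional, then `X` contains a copy of `c_0`. -/
theorem result (X : Type*) [NormedAddCommGroup X] [NormedSpace ℂ X] [CompleteSpace X]
    [Nontrivial X] (hF : Dense {x : X | DifferentiableAt ℝ (fun y : X => ‖y‖) x}) :
    ((∀ k, 2 ≤ k → polyIndex X k = 1) ↔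
      ∀ (x : X) (a : X →L[ℂ] ℂ), ‖x‖ = 1 → DifferentiableAt ℝ (fun y : X => ‖y‖) x →
        ‖a‖ = 1 → a x = 1 → IsLSummand a) ∧
    ((∀ k, 2 ≤ k → polyIndex X k = 1) → ¬ FiniteDimensional ℂ X → ContainsC0 X) := by
  have h1 : (∀ k, 2 ≤ k → polyIndex X k = 1) →
      ∀ (x : X) (a : X →L[ℂ] ℂ), ‖x‖ = 1 → DifferentiableAt ℝ (fun y : X => ‖y‖) x →
        ‖a‖ = 1 → a x = 1 → IsLSummand a := fun hC x a hx hd ha hax =>
    lsummand_of_good a ha (good_of_frechet hC x hx hd a ha hax)
  refine ⟨⟨h1, fun h k hk => ?_⟩, fun hC hdim => ?_⟩
  · refine index_one (fun x ε hε => ?_) k hk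
    obtain ⟨u, a, hu, hd, ha, hau, hlt⟩ := norming hF x ε hε
    exact ⟨a, ha, h u a hu hd ha hau, hlt⟩
  · by_contra hc
    obtain ⟨x, a, hx, ha, hax, hd, hsep⟩ := seq_points hdim hF
    have hL : ∀ i, IsLSummand (a i) := fun i => h1 hC (x i) (a i) (hx i) (hd i) (ha i) (hax i)
    choose e he1 he2 using fun i => exact_disc hc (a i) (ha i) (hL i)
    exact hc (c0_of_discs x a e hx ha hax hsep he1 he2)

end Pool.Agent.Results.MP_a7db77_an.FrechetCase
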